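import Mathlib

set_option autoImplicit false

open Filter Topology Set MeasureTheory Complex

/-!
# The multiplier `2 sinh (κ z / 2) / z` (for helper12, job CV3)
-/

namespace Pool.Agent.L5helper59.CV3L

/-- the multiplier -/
noncomputable def Mk (κ : ℝ) (z : ℂ) : ℂ := ∫ x in (-(κ / 2))..(κ / 2), cexp (x * z)
/-- the real multiplier -/
noncomputable def mk0 (κ t : ℝ) : ℝ := ∫ x in (-(κ / 2))..(κ / 2), Real.cos (x * t)
/-- the decay -/
noncomputable def mn (κ t : ℝ) : ℝ := min κ (1 / (1 + |t|))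
/-- the square -/
noncomputable def qf (κ t : ℝ) : ℝ := 2 - 2 * Real.cos (κ * t)

lemma Mk_entire (κ : ℝ) : Differentiable ℂ (Mk κ) := by
  intro z₀
  have h := intervalIntegral.hasDerivAt_integral_of_dominated_loc_of_deriv_le (μ := volume)
    (F := fun (z : ℂ) (x : ℝ) => cexp (x * z)) (F' := fun (z : ℂ) (x : ℝ) => x * cexp (x * z)) (x₀ := z₀)
    (a := -(κ / 2)) (b := κ / 2) (s := Metric.ball z₀ 1)
    (bound := fun _ => |κ| / 2 * Real.exp (|κ| / 2 * (‖z₀‖ + 1)))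
    (Metric.ball_mem_nhds z₀ one_pos)
    (Filter.Eventually.of_forall fun z => (by fun_prop : Continuous fun x : ℝ => cexp (x * z)).aestronglyMeasurable)
    ((by fun_prop : Continuous fun x : ℝ => cexp (x * z₀)).intervalIntegrable _ _)
    ((by fun_prop : Continuous fun x : ℝ => (x : ℂ) * cexp (x * z₀)).aestronglyMeasurable)
    (Filter.Eventually.of_forall fun x hx z hz => by
      have h1 : |x| ≤ |κ| / 2 := by
        rcases Set.mem_uIoc.1 hx with h | h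
        · rw [abs_le]
          constructor <;> [skip; skip] <;> rcases abs_cases κ with hk | hk <;> linarith [h.1, h.2]
        · rw [abs_le]
          constructor <;> [skip; skip] <;> rcases abs_cases κ with hk | hk <;> linarith [h.1, h.2]
      have h2 : ‖z‖ ≤ ‖z₀‖ + 1 := by
        have := Metric.mem_ball.1 hz
        rw [dist_eq_norm] at this
        calc ‖z‖ = ‖z₀ + (z - z₀)‖ := by ring_nf
          _ ≤ ‖z₀‖ + ‖z - z₀‖ := norm_add_le _ _
          _ ≤ _ := by linarith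
      rw [norm_mul, Complex.norm_real, Real.norm_eq_abs, Complex.norm_exp]
      have h3 : ((x : ℂ) * z).re ≤ |κ| / 2 * (‖z₀‖ + 1) := by
        calc ((x : ℂ) * z).re ≤ ‖(x : ℂ) * z‖ := Complex.re_le_norm _
          _ = |x| * ‖z‖ := by rw [norm_mul, Complex.norm_real, Real.norm_eq_abs]
          _ ≤ _ := by gcongr
      gcongr)
    (intervalIntegrable_const)
    (Filter.Eventually.of_forall fun x _ z _ => by
      have h1 : HasDerivAt (fun z : ℂ => (x : ℂ) * z) x z := by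
        simpa using (hasDerivAt_id z).const_mul (x : ℂ)
      have h2 := h1.cexp
      rwa [mul_comm] at h2)
  exact h.2.differentiableAt

lemma Mk_eq (κ : ℝ) (z : ℂ) (hz : z ≠ 0) :
    Mk κ z = (cexp (κ / 2 * z) - cexp (-(κ / 2 * z))) / z := by
  unfold Mk
  have h := integral_exp_mul_complex (a := -(κ / 2)) (b := κ / 2) hz
  have e : ∀ x : ℝ, cexp (x * z) = cexp (z * x) := fun x => by rw [mul_comm]
  simp_rw [e]
  rw [h]
  congr 2
  · congr 1
    push_cast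
    ring
  · congr 1
    push_cast
    ring

lemma mk0_eq (κ t : ℝ) (ht : t ≠ 0) : mk0 κ t = 2 * Real.sin (κ * t / 2) / t := by
  unfold mk0
  rw [intervalIntegral.integral_comp_mul_right (fun x => Real.cos x) ht, integral_cos, smul_eq_mul,
    show -(κ / 2) * t = -(κ / 2 * t) by ring, Real.sin_neg, show κ / 2 * t = κ * t / 2 by ring]
  field_simp
  ring

lemma mk0_sq (κ t : ℝ) (ht : t ≠ 0) : mk0 κ t ^ 2 = qf κ t / t ^ 2 := by
  rw [mk0_eq κ t ht, div_pow, qf]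
  congr 1
  have h : Real.cos (κ * t) = 1 - 2 * Real.sin (κ * t / 2) ^ 2 := by
    rw [show κ * t = 2 * (κ * t / 2) by ring, Real.cos_two_mul]
    have := Real.sin_sq_add_cos_sq (κ * t / 2)
    have e : 2 * (κ * t / 2) / 2 = κ * t / 2 := by ring
    rw [e]
    linarith
  rw [h]
  ring

lemma mk0_abs (κ t : ℝ) (hκ : 0 ≤ κ) : |mk0 κ t| ≤ κ := by
  have h := intervalIntegral.norm_integral_le_of_norm_le_const (a := -(κ / 2)) (b := κ / 2)
    (f := fun x => Real.cos (x * t)) (C := 1) fun x _ => by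
      rw [Real.norm_eq_abs]
      exact Real.abs_cos_le_one _
  rw [Real.norm_eq_abs] at h
  have e : |κ / 2 - -(κ / 2)| = κ := by
    rw [show κ / 2 - -(κ / 2) = κ by ring, abs_of_nonneg hκ]
  rw [e, one_mul] at h
  exact h

lemma exp34 : Real.exp (3 / 4) ≤ 2.12 := by
  have h1 : Real.exp (3 / 4) ^ 4 ≤ 2.12 ^ 4 := by
    have h2 : Real.exp (3 / 4) ^ 4 = Real.exp 1 ^ 3 := by
      rw [← Real.exp_nat_mul, ← Real.exp_nat_mul]
      norm_num
    rw [h2]
    calc Real.exp 1 ^ 3 ≤ 2.7182818286 ^ 3 := by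
          gcongr
          exact Real.exp_one_lt_d9.le
      _ ≤ _ := by norm_num
  exact le_of_pow_le_pow_left₀ (by norm_num) (by norm_num) h1

lemma Mk_triv (κ : ℝ) (hκ0 : 0 < κ) (hκ : κ ≤ 1) (z : ℂ) (h1 : -1 / 2 ≤ z.re) (h2 : z.re ≤ 3 / 2) :
    ‖Mk κ z‖ ≤ 2.12 * κ := by
  have h := intervalIntegral.norm_integral_le_of_norm_le_const (a := -(κ / 2)) (b := κ / 2)
    (f := fun x : ℝ => cexp (x * z)) (C := 2.12) fun x hx => by
      rw [Complex.norm_exp]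
      refine le_trans (Real.exp_le_exp.2 ?_) exp34
      rw [Set.uIoc_of_le (by linarith)] at hx
      have h3 : ((x : ℂ) * z).re = x * z.re := by simp
      rw [h3]
      have h4 : |x| ≤ 1 / 2 := abs_le.2 ⟨by linarith [hx.1], by linarith [hx.2]⟩
      have h5 : |z.re| ≤ 3 / 2 := abs_le.2 ⟨by linarith, h2⟩
      calc x * z.re ≤ |x * z.re| := le_abs_self _
        _ = |x| * |z.re| := abs_mul _ _
        _ ≤ 1 / 2 * (3 / 2) := by gcongr
        _ = 3 / 4 := by norm_num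
  have e : |κ / 2 - -(κ / 2)| = κ := by
    rw [show κ / 2 - -(κ / 2) = κ by ring, abs_of_pos hκ0]
  rw [e] at h
  exact h

theorem Mk_le (κ : ℝ) (hκ0 : 0 < κ) (hκ : κ ≤ 1) (z : ℂ) (h1 : -1 / 2 ≤ z.re) (h2 : z.re ≤ 3 / 2) :
    ‖Mk κ z‖ ≤ 6 * mn κ z.im := by
  have ht := Mk_triv κ hκ0 hκ z h1 h2
  unfold mn
  rw [mul_min_of_nonneg _ _ (by norm_num : (0 : ℝ) ≤ 6), le_min_iff]
  constructor
  · linarith
  · have hp : 0 < 1 + |z.im| := by positivity
    rw [mul_one_div, le_div_iff₀ hp]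
    by_cases him : |z.im| ≤ 1
    · calc ‖Mk κ z‖ * (1 + |z.im|) ≤ (2.12 * κ) * (1 + 1) := by gcongr
        _ ≤ 6 := by linarith
    · push Not at him
      have hz : z ≠ 0 := by
        rintro rfl
        simp at him
        linarith
      have hz0 : 0 < ‖z‖ := norm_pos_iff.2 hz
      have hzi : |z.im| ≤ ‖z‖ := Complex.abs_im_le_norm z
      have h3 : ‖cexp (κ / 2 * z) - cexp (-(κ / 2 * z))‖ ≤ 3 := by
        have e1 : ((κ : ℂ) / 2 * z).re = κ / 2 * z.re := by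
          have : (κ : ℂ) / 2 = ((κ / 2 : ℝ) : ℂ) := by push_cast; ring
          rw [this, Complex.re_ofReal_mul]
        calc ‖cexp (κ / 2 * z) - cexp (-(κ / 2 * z))‖ ≤ ‖cexp (κ / 2 * z)‖ + ‖cexp (-(κ / 2 * z))‖ := norm_sub_le _ _
          _ = Real.exp (κ / 2 * z.re) + Real.exp (-(κ / 2 * z.re)) := by
              rw [Complex.norm_exp, Complex.norm_exp, Complex.neg_re, e1]
          _ = 2 * Real.cosh (κ / 2 * z.re) := by rw [Real.cosh_eq]; ring
          _ ≤ 2 * Real.cosh (3 / 4) := by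
              have : |κ / 2 * z.re| ≤ |(3 / 4 : ℝ)| := by
                rw [abs_mul, abs_of_pos (by positivity : (0 : ℝ) < κ / 2), abs_of_pos (by norm_num : (0 : ℝ) < 3 / 4)]
                have h5 : |z.re| ≤ 3 / 2 := abs_le.2 ⟨by linarith, h2⟩
                calc κ / 2 * |z.re| ≤ 1 / 2 * (3 / 2) := by gcongr
                  _ = 3 / 4 := by norm_num
              have := Real.cosh_le_cosh.2 this
              linarith
          _ ≤ 3 := by
              rw [Real.cosh_eq]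
              have h6 := exp34
              have h7 : Real.exp (-(3 / 4)) ≤ 4 / 7 := by
                rw [Real.exp_neg, inv_le_comm₀ (Real.exp_pos _) (by norm_num)]
                have := Real.add_one_le_exp (3 / 4 : ℝ)
                norm_num
                linarith
              linarith
      rw [Mk_eq κ z hz, norm_div, div_mul_eq_mul_div, div_le_iff₀ hz0]
      calc ‖cexp (κ / 2 * z) - cexp (-(κ / 2 * z))‖ * (1 + |z.im|) ≤ 3 * (‖z‖ + ‖z‖) := by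
            gcongr
            linarith
        _ = 6 * ‖z‖ := by ring

lemma mn_shift (κ : ℝ) (hκ0 : 0 < κ) (v t : ℝ) : mn κ v ≤ (1 + |v - t|) * mn κ t := by
  unfold mn
  have h0 : 0 ≤ |v - t| := abs_nonneg _
  rw [mul_min_of_nonneg _ _ (by linarith : (0 : ℝ) ≤ 1 + |v - t|), le_min_iff]
  constructor
  · refine (min_le_left _ _).trans ?_
    nlinarith
  · refine (min_le_right _ _).trans ?_
    have hv : 0 < 1 + |v| := by positivity
    have ht : 0 < 1 + |t| := by positivity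
    rw [mul_one_div, div_le_div_iff₀ hv ht]
    have h3 : |t| ≤ |v| + |v - t| := by
      have := abs_sub_abs_le_abs_sub t v
      rw [abs_sub_comm t v] at this
      linarith
    have h4 : 0 ≤ |v - t| * |v| := by positivity
    nlinarith

lemma exp_sub_one_abs (u : ℝ) (hu : |u| ≤ 1) : |Real.exp u - 1| ≤ 2 * |u| := by
  have h := Real.abs_exp_sub_one_le hu
  exact h

/-- the multiplier at `1/2 + iγ` against the real one at `γ` -/
lemma Mk_half (κ : ℝ) (hκ0 : 0 < κ) (hκ : κ ≤ 1) (γ : ℝ) (hγ : γ ≠ 0) :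
    ‖Mk κ (⟨1 / 2, γ⟩ : ℂ) - (mk0 κ γ : ℂ)‖ ≤ 3 / 2 * κ / |γ| := by
  have hz : (⟨1 / 2, γ⟩ : ℂ) ≠ 0 := by
    intro h
    exact hγ (congrArg Complex.im h)
  have hg : 0 < |γ| := abs_pos.2 hγ
  set z : ℂ := ⟨1 / 2, γ⟩ with hzdef
  have hzg : |γ| ≤ ‖z‖ := Complex.abs_im_le_norm z
  have hz0 : 0 < ‖z‖ := norm_pos_iff.2 hz
  have hIg : (I * γ : ℂ) ≠ 0 := mul_ne_zero I_ne_zero (by exact_mod_cast hγ)
  have hzI : z = 1 / 2 + I * γ := by
    apply Complex.ext <;> simp [hzdef]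
  set E : ℂ := cexp (κ / 2 * (I * γ)) with hE
  set E' : ℂ := cexp (-(κ / 2 * (I * γ))) with hE'
  have hEn : ‖E‖ = 1 := by
    rw [hE, Complex.norm_exp]
    simp
  have hEn' : ‖E'‖ = 1 := by
    rw [hE', Complex.norm_exp]
    simp
  have h1 : (mk0 κ γ : ℂ) = (E - E') / (I * γ) := by
    rw [mk0_eq κ γ hγ, hE, hE']
    have e : (Real.sin (κ * γ / 2) : ℂ) = (cexp (-(κ * γ / 2) * I) - cexp (κ * γ / 2 * I)) * I / 2 := by
      rw [Complex.ofReal_sin, Complex.sin]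
      push_cast
      ring
    push_cast at e ⊢
    rw [e]
    have e1 : (κ : ℂ) / 2 * (I * γ) = κ * γ / 2 * I := by ring
    have e2 : -(κ * γ / 2 : ℂ) * I = -((κ : ℂ) / 2 * (I * γ)) := by ring
    rw [e2, ← e1]
    have hγc : (γ : ℂ) ≠ 0 := by exact_mod_cast hγ
    field_simp
    rw [I_sq]
    ring
  have h2 : Mk κ z = (E * cexp ((κ / 4 : ℝ) : ℂ) - E' * cexp ((-(κ / 4) : ℝ) : ℂ)) / z := by
    rw [Mk_eq κ z hz, hE, hE', ← Complex.exp_add, ← Complex.exp_add, hzI]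
    congr 3
    · push_cast; ring
    · push_cast; ring
  have h3 : Mk κ z - (mk0 κ γ : ℂ) =
      (E * (cexp ((κ / 4 : ℝ) : ℂ) - 1) - E' * (cexp ((-(κ / 4) : ℝ) : ℂ) - 1)) / z + (E - E') * (1 / z - 1 / (I * γ)) := by
    rw [h2, h1]
    field_simp
    ring
  have h4 : ‖cexp ((κ / 4 : ℝ) : ℂ) - 1‖ ≤ κ / 2 := by
    have : cexp ((κ / 4 : ℝ) : ℂ) - 1 = ((Real.exp (κ / 4) - 1 : ℝ) : ℂ) := by push_cast; rfl
    rw [this, Complex.norm_real, Real.norm_eq_abs]
    have := exp_sub_one_abs (κ / 4) (by rw [abs_of_pos (by positivity)]; linarith)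
    rw [abs_of_pos (by positivity : (0 : ℝ) < κ / 4)] at this
    linarith
  have h5 : ‖cexp ((-(κ / 4) : ℝ) : ℂ) - 1‖ ≤ κ / 2 := by
    have : cexp ((-(κ / 4) : ℝ) : ℂ) - 1 = ((Real.exp (-(κ / 4)) - 1 : ℝ) : ℂ) := by push_cast; rfl
    rw [this, Complex.norm_real, Real.norm_eq_abs]
    have := exp_sub_one_abs (-(κ / 4)) (by rw [abs_neg, abs_of_pos (by positivity)]; linarith)
    rw [abs_neg, abs_of_pos (by positivity : (0 : ℝ) < κ / 4)] at this
    linarith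
  have h6 : ‖E - E'‖ ≤ κ * |γ| := by
    have : E - E' = (mk0 κ γ : ℂ) * (I * γ) := by
      rw [h1, div_mul_cancel₀ _ hIg]
    rw [this, norm_mul, norm_mul, Complex.norm_real, Complex.norm_real, Complex.norm_I, one_mul, Real.norm_eq_abs,
      Real.norm_eq_abs]
    have := mk0_abs κ γ hκ0.le
    gcongr
  have h7 : ‖1 / z - 1 / (I * γ)‖ ≤ 1 / 2 / (|γ| * |γ|) := by
    have : 1 / z - 1 / (I * γ) = -(1 / 2) / (z * (I * γ)) := by
      rw [div_sub_div _ _ hz hIg, hzI]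
      congr 1
      ring
    rw [this, norm_div, norm_neg, norm_mul, norm_mul, Complex.norm_I, one_mul, Complex.norm_real, Real.norm_eq_abs]
    have e : ‖(1 / 2 : ℂ)‖ = 1 / 2 := by norm_num
    rw [e]
    gcongr
  rw [h3]
  calc ‖(E * (cexp ((κ / 4 : ℝ) : ℂ) - 1) - E' * (cexp ((-(κ / 4) : ℝ) : ℂ) - 1)) / z + (E - E') * (1 / z - 1 / (I * γ))‖
      ≤ ‖(E * (cexp ((κ / 4 : ℝ) : ℂ) - 1) - E' * (cexp ((-(κ / 4) : ℝ) : ℂ) - 1)) / z‖ +
          ‖(E - E') * (1 / z - 1 / (I * γ))‖ := norm_add_le _ _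
    _ ≤ κ / |γ| + (κ * |γ|) * (1 / 2 / (|γ| * |γ|)) := by
        refine add_le_add ?_ ?_
        · rw [norm_div]
          have : ‖E * (cexp ((κ / 4 : ℝ) : ℂ) - 1) - E' * (cexp ((-(κ / 4) : ℝ) : ℂ) - 1)‖ ≤ κ := by
            calc _ ≤ ‖E * (cexp ((κ / 4 : ℝ) : ℂ) - 1)‖ + ‖E' * (cexp ((-(κ / 4) : ℝ) : ℂ) - 1)‖ := norm_sub_le _ _
              _ ≤ κ := by rw [norm_mul, norm_mul, hEn, hEn', one_mul, one_mul]; linarith
          gcongr
        · rw [norm_mul]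
          gcongr
    _ = 3 / 2 * κ / |γ| := by
        field_simp
        ring

lemma mk0_diff (κ : ℝ) (hκ0 : 0 < κ) (γ t : ℝ) (hγ : γ ≠ 0) (ht : t ≠ 0) :
    |mk0 κ γ - mk0 κ t| ≤ 2 * κ * |γ - t| / |t| := by
  have hg : 0 < |γ| := abs_pos.2 hγ
  have ht0 : 0 < |t| := abs_pos.2 ht
  have h1 : |Real.sin (κ * γ / 2) - Real.sin (κ * t / 2)| ≤ κ / 2 * |γ - t| := by
    have h := Real.abs_sin_sub_sin_le (κ * γ / 2) (κ * t / 2)
    refine h.trans (le_of_eq ?_)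
    rw [show κ * γ / 2 - κ * t / 2 = κ / 2 * (γ - t) by ring, abs_mul, abs_of_pos (by positivity : (0 : ℝ) < κ / 2)]
  have h2 : |mk0 κ γ| ≤ κ := mk0_abs κ γ hκ0.le
  have h3 : mk0 κ γ - mk0 κ t = (2 * (Real.sin (κ * γ / 2) - Real.sin (κ * t / 2)) + mk0 κ γ * (t - γ)) / t := by
    rw [mk0_eq κ γ hγ, mk0_eq κ t ht]
    field_simp
    ring
  rw [h3, abs_div]
  gcongr
  calc |2 * (Real.sin (κ * γ / 2) - Real.sin (κ * t / 2)) + mk0 κ γ * (t - γ)|
      ≤ |2 * (Real.sin (κ * γ / 2) - Real.sin (κ * t / 2))| + |mk0 κ γ * (t - γ)| := abs_add_le _ _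
    _ = 2 * |Real.sin (κ * γ / 2) - Real.sin (κ * t / 2)| + |mk0 κ γ| * |γ - t| := by
        rw [abs_mul, abs_mul, abs_two, abs_sub_comm t γ]
    _ ≤ 2 * (κ / 2 * |γ - t|) + κ * |γ - t| := by gcongr
    _ = 2 * κ * |γ - t| := by ring

theorem Mk_mk0 (κ : ℝ) (hκ0 : 0 < κ) (hκ : κ ≤ 1) (γ t : ℝ) :
    ‖Mk κ (⟨1 / 2, γ⟩ : ℂ) - (mk0 κ t : ℂ)‖ ≤ 16 * κ * (1 + |γ - t|) / (1 + |t|) := by
  have hp : 0 < 1 + |t| := by positivity
  have hd : 0 ≤ |γ - t| := abs_nonneg _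
  have htriv : ‖Mk κ (⟨1 / 2, γ⟩ : ℂ) - (mk0 κ t : ℂ)‖ ≤ 8 * κ := by
    have h1 := Mk_triv κ hκ0 hκ (⟨1 / 2, γ⟩ : ℂ) (by norm_num) (by norm_num)
    have h2 := mk0_abs κ t hκ0.le
    calc _ ≤ ‖Mk κ (⟨1 / 2, γ⟩ : ℂ)‖ + ‖(mk0 κ t : ℂ)‖ := norm_sub_le _ _
      _ ≤ 2.12 * κ + κ := by
          rw [Complex.norm_real, Real.norm_eq_abs]
          gcongr
      _ ≤ 8 * κ := by linarith
  rw [le_div_iff₀ hp]
  by_cases h1 : |t| ≤ 1
  · calc _ ≤ (8 * κ) * (1 + 1) := by gcongr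
      _ ≤ 16 * κ * (1 + |γ - t|) := by nlinarith
  · push Not at h1
    by_cases h2 : |t| ≤ 2 * |γ - t|
    · calc _ ≤ (8 * κ) * (1 + |t|) := by gcongr
        _ ≤ 16 * κ * (1 + |γ - t|) := by nlinarith
    · push Not at h2
      have ht : t ≠ 0 := by
        rintro rfl
        simp at h1
        linarith
      have hγt : |t| ≤ 2 * |γ| := by
        have := abs_sub_abs_le_abs_sub t γ
        rw [abs_sub_comm t γ] at this
        linarith
      have hγ : γ ≠ 0 := by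
        rintro rfl
        simp at hγt
        exact ht hγt
      have hg : 0 < |γ| := abs_pos.2 hγ
      have ht0 : 0 < |t| := abs_pos.2 ht
      have h3 := Mk_half κ hκ0 hκ γ hγ
      have h4 := mk0_diff κ hκ0 γ t hγ ht
      have h5 : ‖Mk κ (⟨1 / 2, γ⟩ : ℂ) - (mk0 κ t : ℂ)‖ ≤ 3 / 2 * κ / |γ| + 2 * κ * |γ - t| / |t| := by
        calc _ = ‖(Mk κ (⟨1 / 2, γ⟩ : ℂ) - (mk0 κ γ : ℂ)) + ((mk0 κ γ : ℂ) - (mk0 κ t : ℂ))‖ := by ring_nf
          _ ≤ ‖Mk κ (⟨1 / 2, γ⟩ : ℂ) - (mk0 κ γ : ℂ)‖ + ‖(mk0 κ γ : ℂ) - (mk0 κ t : ℂ)‖ := norm_add_le _ _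
          _ ≤ _ := by
              refine add_le_add h3 ?_
              rw [← Complex.ofReal_sub, Complex.norm_real, Real.norm_eq_abs]
              exact h4
      have h6 : 3 / 2 * κ / |γ| ≤ 3 * κ / |t| := by
        rw [div_le_div_iff₀ hg ht0]
        nlinarith
      have h7 : ‖Mk κ (⟨1 / 2, γ⟩ : ℂ) - (mk0 κ t : ℂ)‖ ≤ (3 * κ + 2 * κ * |γ - t|) / |t| := by
        rw [add_div]
        linarith
      calc _ ≤ ((3 * κ + 2 * κ * |γ - t|) / |t|) * (|t| + |t|) := by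
            gcongr
        _ = 6 * κ + 4 * κ * |γ - t| := by
            field_simp
            ring
        _ ≤ 16 * κ * (1 + |γ - t|) := by nlinarith [mul_nonneg hκ0.le hd]

end Pool.Agent.L5helper59.CV3L
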