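import Pool.Agent.L5helper12.CV.Defs
import Pool.Agent.L5helper59.CV3L

/-!
# The multiplier `2 sinh (κ z / 2) / z` (for helper12, job CV3)
-/

set_option autoImplicit false

namespace Pool.Agent.L5helper12.CV

lemma Mk_entire (κ : ℝ) : Differentiable ℂ (Mk κ) := Pool.Agent.L5helper59.CV3L.Mk_entire κ

theorem Mk_le (κ : ℝ) (hκ0 : 0 < κ) (hκ : κ ≤ 1) (z : ℂ) (h1 : -1 / 2 ≤ z.re) (h2 : z.re ≤ 3 / 2) :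
    ‖Mk κ z‖ ≤ 6 * mn κ z.im := Pool.Agent.L5helper59.CV3L.Mk_le κ hκ0 hκ z h1 h2

lemma mn_shift (κ : ℝ) (hκ0 : 0 < κ) (v t : ℝ) : mn κ v ≤ (1 + |v - t|) * mn κ t :=
  Pool.Agent.L5helper59.CV3L.mn_shift κ hκ0 v t

theorem Mk_mk0 (κ : ℝ) (hκ0 : 0 < κ) (hκ : κ ≤ 1) (γ t : ℝ) :
    ‖Mk κ (⟨1 / 2, γ⟩ : ℂ) - (mk0 κ t : ℂ)‖ ≤ 16 * κ * (1 + |γ - t|) / (1 + |t|) :=
  Pool.Agent.L5helper59.CV3L.Mk_mk0 κ hκ0 hκ γ t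

lemma mk0_sq (κ t : ℝ) (ht : t ≠ 0) : mk0 κ t ^ 2 = Pool.Agent.L5helper12.PV.qf κ t / t ^ 2 :=
  Pool.Agent.L5helper59.CV3L.mk0_sq κ t ht

end Pool.Agent.L5helper12.CV
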